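import Pool.Agent.Q71.NI.Iso

/-!
# MP_6da9ed_an, Q1 (negative answer)

Let `X` be the real Banach space `ℓ₁(ℕ; ℂ)` with the equivalent norm
`‖x‖ = ∑ |xᵢ| + sup |Re xᵢ|`. Then `n(X) ≥ 1/28`, but `n(X_U) = 0` for **every** free ultrafilter
`U` on `ℕ`.

The reason: the ultrapower splits as an `ℓ₁`-sum of an atomic part and a diffuse part, the
supremum of the real parts is not seen by the diffuse part, so that multiplication by `i` on the
diffuse part (and `0` on the atomic part) has numerical radius `0`; this operator is a pointwise
limit of ultraproducts of operators, but not an ultraproduct of operators.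
-/

set_option autoImplicit false

open Filter Topology Q71.NI

namespace Pool.Agent.Results.MP_6da9ed_an.DiffuseRotation

/-- There is a real Banach space `X` with numerical index at least `1/28`, such that for every free
ultrafilter `U` on `ℕ` the ultrapower of `X` along `U` has numerical index `0`. (The ultrapower
exists, and it is unique up to a surjective linear isometry.) -/
theorem result :
    ∃ (X : Type) (_ : NormedAddCommGroup X) (_ : NormedSpace ℝ X),
      CompleteSpace X ∧ 1 / 28 ≤ numIndex X ∧
      ∀ U : Ultrafilter ℕ, (U : Filter ℕ) ≤ cofinite →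
        (∃ (Y : Type) (_ : NormedAddCommGroup Y) (_ : NormedSpace ℝ Y) (q : (ℕ → X) → Y),
          IsUltrapower U q) ∧
        ∀ (Y : Type) (_ : NormedAddCommGroup Y) (_ : NormedSpace ℝ Y) (q : (ℕ → X) → Y),
          IsUltrapower U q → numIndex Y = 0 := by
  refine ⟨X, inferInstance, inferInstance, inferInstance, numIndex_X, fun U hU => ⟨?_, ?_⟩⟩
  · obtain ⟨q, hq⟩ := isUltrapower_cls U X
    exact ⟨_, _, _, q, hq⟩
  · intro Y _ _ q hq
    obtain ⟨e⟩ := exists_iso U q hq
    exact numIndex_eq_zero e (TT U) (TT_ne U hU) (numRadius_TT U)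

end Pool.Agent.Results.MP_6da9ed_an.DiffuseRotation
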